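import Mathlib
import Pool.Agent.H53.Mader.Defs
import Pool.Agent.H53.Mader.Main

set_option autoImplicit false

/-!
# The bound of Q1 for all `r ≤ k ≤ 3r - 1`

For `r ≥ 3` and `r ≤ k ≤ 3r - 1`, every `r`-uniform hypergraph on `n ≥ 2k + 1` vertices (and also
`n = 2k` if `k ≤ 2r - 1`) with no `(k+1)`-connected subgraph satisfies the bound of Q1.
The definitions are in `Pool/Agent/H53/Mader/Defs.lean`.
-/

namespace Pool.Agent.Results.MP_3f30af_co.BoundForKBelow3r

open Pool.Agent.H53.Mader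

theorem result (r k : ℕ) (hr : 3 ≤ r) (hrk : r ≤ k) (hk : k ≤ 3 * r - 1)
    {V : Type} [DecidableEq V] (H : HG V) (hu : H.Uniform r) (hf : H.Free k)
    (hn : 2 * k + 1 ≤ H.verts.card ∨ (k ≤ 2 * r - 1 ∧ 2 * k = H.verts.card)) :
    (H.edges.card : ℝ) ≤ (H.verts.card.choose r : ℝ) - ((H.verts.card - k).choose r : ℝ) +
      ((H.verts.card : ℝ) / k - 2) * (k.choose r : ℝ) := by
  have hG := good_of_free hf
  have hE := edges_card_eq hu
  have hN := EE_add_NN H.edges r H.verts
  have hk0 : (0 : ℝ) < k := by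
    have : 0 < k := by omega
    exact_mod_cast this
  obtain ⟨m, hm⟩ : ∃ m, H.verts.card = k + m := ⟨H.verts.card - k, by omega⟩
  -- the key inequality in integers
  have key : (k : ℤ) * (m.choose r : ℤ) ≤ (k : ℤ) * (NN H.edges r H.verts : ℤ) +
      ((m : ℤ) - k) * (k.choose r : ℤ) := by
    rcases hn with hn | ⟨hk2, hn⟩
    · exact main_small hG hr hrk (by omega) m (by omega) H.verts subset_rfl hm
    · have hmk : m = k := by omega
      have h1 := g_le hG hr m (by omega) H.verts subset_rfl hm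
      have h2 : (m / 2).choose r = 0 := Nat.choose_eq_zero_of_lt (by omega)
      rw [h2, add_zero] at h1
      subst hmk
      have h3 : (m.choose r : ℤ) ≤ (NN H.edges r H.verts : ℤ) := by exact_mod_cast h1
      have h4 := mul_le_mul_of_nonneg_left h3 (show (0 : ℤ) ≤ (m : ℤ) by positivity)
      linarith
  have key' : (k : ℝ) * (m.choose r : ℝ) ≤ (k : ℝ) * (NN H.edges r H.verts : ℝ) +
      ((m : ℝ) - k) * (k.choose r : ℝ) := by exact_mod_cast key
  rw [hE]
  rw [hm] at hN ⊢
  have hN' : (EE H.edges r H.verts : ℝ) + (NN H.edges r H.verts : ℝ) =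
      ((k + m).choose r : ℝ) := by exact_mod_cast hN
  have hsub : k + m - k = m := by omega
  rw [hsub]
  have h1 : (((k + m : ℕ) : ℝ) / k - 2) * (k.choose r : ℝ) =
      (((m : ℝ) - k) * (k.choose r : ℝ)) / k := by
    push_cast
    field_simp
    ring
  rw [h1]
  have h2 : (m.choose r : ℝ) ≤ (NN H.edges r H.verts : ℝ) +
      (((m : ℝ) - k) * (k.choose r : ℝ)) / k := by
    rw [← mul_le_mul_iff_right₀ hk0]
    calc (k : ℝ) * (m.choose r : ℝ) ≤ _ := key'
      _ = (k : ℝ) * ((NN H.edges r H.verts : ℝ) +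
        (((m : ℝ) - k) * (k.choose r : ℝ)) / k) := by
        field_simp
  linarith

end Pool.Agent.Results.MP_3f30af_co.BoundForKBelow3r
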