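import Mathlib
import Pool.Agent.H53.Mader.Defs
import Pool.Agent.H12.Mader.Main

set_option autoImplicit false

/-!
# The hypergraph analogue of Mader's conjecture (Q1), with an explicit threshold

For all `k ≥ r ≥ 3` and all `n` with `(r - 1) (n - k) ≥ k ^ 2`, every `r`-uniform hypergraph on `n`
vertices without a `(k + 1)`-connected subgraph has at most
`C(n, r) - C(n - k, r) + (n / k - 2) C(k, r)` edges.
The definitions are in `Pool/Agent/H53/Mader/Defs.lean`.
-/

namespace Pool.Agent.Results.MP_3f30af_co.FullAnswer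

open Pool.Agent.H53.Mader

theorem result (r k : ℕ) (hr : 3 ≤ r) (hrk : r ≤ k)
    {V : Type} [DecidableEq V] (H : HG V) (hu : H.Uniform r) (hf : H.Free k)
    (hn : k ^ 2 ≤ (r - 1) * (H.verts.card - k)) :
    (H.edges.card : ℝ) ≤ (H.verts.card.choose r : ℝ) - ((H.verts.card - k).choose r : ℝ) +
      ((H.verts.card : ℝ) / k - 2) * (k.choose r : ℝ) :=
  Pool.Agent.H12.Mader.main hr hrk H hu hf (by rwa [← pow_two])

end Pool.Agent.Results.MP_3f30af_co.FullAnswer
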