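import Mathlib
import Pool.Agent.H53.Mader.Defs
import Pool.Agent.H53.Mader.Main

set_option autoImplicit false

/-!
# A bound with constant `2^r / (2^r - 1)` for all `k ≥ r ≥ 3` and `n ≥ 2k`

The conjectured constant is `1`.  The definitions are in `Pool/Agent/H53/Mader/Defs.lean`.
-/

namespace Pool.Agent.Results.MP_3f30af_co.ImprovedConstant

open Pool.Agent.H53.Mader

theorem result (r k : ℕ) (hr : 3 ≤ r) (hrk : r ≤ k)
    {V : Type} [DecidableEq V] (H : HG V) (hu : H.Uniform r) (hf : H.Free k)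
    (hn : 2 * k ≤ H.verts.card) :
    (H.edges.card : ℝ) ≤ (H.verts.card.choose r : ℝ) - ((H.verts.card - k).choose r : ℝ) +
      ((2 : ℝ) ^ r / (2 ^ r - 1) * (((H.verts.card : ℝ) - k) / k) - 1) * (k.choose r : ℝ) := by
  have hG := good_of_free hf
  have hE := edges_card_eq hu
  have hN := EE_add_NN H.edges r H.verts
  have hk0 : (0 : ℝ) < k := by
    have : 0 < k := by omega
    exact_mod_cast this
  have hM : (0 : ℝ) < 2 ^ r - 1 := by
    have : (2 : ℝ) ^ 1 ≤ 2 ^ r := pow_le_pow_right₀ (by norm_num) (by omega)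
    linarith
  obtain ⟨m, hm⟩ : ∃ m, H.verts.card = k + m := ⟨H.verts.card - k, by omega⟩
  have key := main_general hG (show 2 ≤ r by omega) hrk m (by omega) H.verts subset_rfl hm
  have key' : (k : ℝ) * ((2 ^ r - 1) * (m.choose r : ℝ)) ≤
        (k : ℝ) * ((2 ^ r - 1) * (NN H.edges r H.verts : ℝ)) +
          (2 ^ r * (m : ℝ) - (k : ℝ) * (2 ^ r - 1)) * (k.choose r : ℝ) := by exact_mod_cast key
  rw [hE]
  rw [hm] at hN ⊢
  have hN' : (EE H.edges r H.verts : ℝ) + (NN H.edges r H.verts : ℝ) =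
      ((k + m).choose r : ℝ) := by exact_mod_cast hN
  have hsub : k + m - k = m := by omega
  rw [hsub]
  have h1 : ((2 : ℝ) ^ r / (2 ^ r - 1) * ((((k + m : ℕ) : ℝ) - k) / k) - 1) * (k.choose r : ℝ) =
      ((2 ^ r * (m : ℝ) - (k : ℝ) * (2 ^ r - 1)) * (k.choose r : ℝ)) / (k * (2 ^ r - 1)) := by
    push_cast
    have := hM.ne'
    field_simp
    ring
  rw [h1]
  have hkM : (0 : ℝ) < k * (2 ^ r - 1) := mul_pos hk0 hM
  have h2 : (m.choose r : ℝ) ≤ (NN H.edges r H.verts : ℝ) +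
      ((2 ^ r * (m : ℝ) - (k : ℝ) * (2 ^ r - 1)) * (k.choose r : ℝ)) / (k * (2 ^ r - 1)) := by
    rw [← mul_le_mul_iff_right₀ hkM]
    calc (k * (2 ^ r - 1) : ℝ) * (m.choose r : ℝ)
        = (k : ℝ) * ((2 ^ r - 1) * (m.choose r : ℝ)) := by ring
      _ ≤ _ := key'
      _ = (k * (2 ^ r - 1) : ℝ) * ((NN H.edges r H.verts : ℝ) +
        ((2 ^ r * (m : ℝ) - (k : ℝ) * (2 ^ r - 1)) * (k.choose r : ℝ)) / (k * (2 ^ r - 1))) := by
        have := hM.ne'
        field_simp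
  linarith

end Pool.Agent.Results.MP_3f30af_co.ImprovedConstant
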